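import Pool.Agent.Run7.h547.KM.Iface

/-!
# Project KM (helper547): piece COUNT
-/

set_option autoImplicit false

universe u

namespace Pool.Agent.Run7.h722.KM

open Pool.Agent.Run7.h547.KM

lemma WW_coeff (k : Type u) [Field k] (w w' : List (Fin 3)) :
    (WW k w).coeff (FreeMonoid.ofList w') = if w = w' then 1 else 0 := by
  classical
  unfold WW
  rw [MonoidAlgebra.coeff_single, Finsupp.single_apply]
  by_cases h : w = w'
  · rw [if_pos h, if_pos (congrArg FreeMonoid.ofList h)]
  · rw [if_neg h, if_neg (fun e => h (FreeMonoid.ofList.injective e))]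

theorem t_COUNT : S_COUNT.{u} := by
  intro k _ _ n P hfin hP
  classical
  obtain ⟨A, hA⟩ : ∃ A : Finset (List (Fin 3)),
      A = (Finset.univ : Finset (Fin n → Fin 3)).image List.ofFn := ⟨_, rfl⟩
  have hAcard : A.card = 3 ^ n := by
    rw [hA, Finset.card_image_of_injective _ List.ofFn_injective, Finset.card_univ,
      Fintype.card_fun, Fintype.card_fin, Fintype.card_fin]
  have hAlen : ∀ w ∈ A, w.length = n := by
    intro w hw
    rw [hA] at hw
    obtain ⟨f, -, rfl⟩ := Finset.mem_image.1 hw
    exact List.length_ofFn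
  have hAmem : ∀ w : List (Fin 3), w.length = n → w ∈ A := by
    intro w hw
    subst hw
    rw [hA]
    exact Finset.mem_image.2 ⟨w.get, Finset.mem_univ _, List.ofFn_get w⟩
  obtain ⟨enc, henc⟩ : ∃ enc : List (Fin 3) → ℕ, Function.Injective enc :=
    ⟨Encodable.encode, Encodable.encode_injective⟩
  obtain ⟨T, hT⟩ : ∃ T : Finset (List (Fin 3)),
      T = A.filter (fun w => enc w ≤ enc w.reverse) := ⟨_, rfl⟩
  obtain ⟨T', hT'⟩ : ∃ T' : Finset (List (Fin 3)),
      T' = A.filter (fun w => enc w.reverse ≤ enc w) := ⟨_, rfl⟩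
  have hTmem : ∀ w, w ∈ T ↔ w ∈ A ∧ enc w ≤ enc w.reverse := by
    intro w; rw [hT, Finset.mem_filter]
  have hTmem' : ∀ w, w ∈ T' ↔ w ∈ A ∧ enc w.reverse ≤ enc w := by
    intro w; rw [hT', Finset.mem_filter]
  have hcov : A ⊆ T ∪ T' := by
    intro w hw
    rcases le_total (enc w) (enc w.reverse) with h | h
    · exact Finset.mem_union_left _ ((hTmem w).2 ⟨hw, h⟩)
    · exact Finset.mem_union_right _ ((hTmem' w).2 ⟨hw, h⟩)
  have hT'c : T'.card ≤ T.card := by
    refine Finset.card_le_card_of_injOn List.reverse ?_ (List.reverse_injective.injOn)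
    intro w hw
    have hw' := (hTmem' w).1 (Finset.mem_coe.1 hw)
    refine Finset.mem_coe.2 ((hTmem _).2 ⟨hAmem _ ?_, ?_⟩)
    · rw [List.length_reverse]; exact hAlen w hw'.1
    · rw [List.reverse_reverse]; exact hw'.2
  have hcard : 3 ^ n ≤ 2 * T.card := by
    have h1 := Finset.card_le_card hcov
    have h2 := Finset.card_union_le T T'
    omega
  have hTlen : ∀ w : T, (w : List (Fin 3)).length = n := fun w =>
    hAlen _ ((hTmem _).1 w.2).1
  have hli : LinearIndependent k
      (fun w : T => (⟨WW k w.1 + WW k w.1.reverse, hP _ (hTlen w)⟩ : P)) := by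
    rw [Fintype.linearIndependent_iff]
    intro g hg w₀
    have h1 : ∑ w : T, g w • (WW k w.1 + WW k w.1.reverse) = 0 := by
      have := congrArg Subtype.val hg
      rw [AddSubmonoidClass.coe_finsetSum] at this
      exact this
    have h2 : ∑ w : T, g w * ((WW k w.1).coeff (FreeMonoid.ofList w₀.1) +
        (WW k w.1.reverse).coeff (FreeMonoid.ofList w₀.1)) = 0 := by
      have h3 := congrArg (fun x : AA k => x.coeff (FreeMonoid.ofList w₀.1)) h1
      simp only [MonoidAlgebra.coeff_sum, Finsupp.finsetSum_apply, MonoidAlgebra.coeff_smul,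
        MonoidAlgebra.coeff_add, Finsupp.smul_apply, Finsupp.add_apply, smul_eq_mul,
        MonoidAlgebra.coeff_zero, Finsupp.zero_apply] at h3
      exact h3
    rw [Finset.sum_eq_single w₀] at h2
    · rcases mul_eq_zero.1 h2 with h | h
      · exact h
      · rw [WW_coeff, WW_coeff, if_pos rfl] at h
        split_ifs at h
        · exact absurd h (by norm_num)
        · exact absurd h (by norm_num)
    · intro w _ hw
      have hne : (w : List (Fin 3)) ≠ w₀ := fun e => hw (Subtype.ext e)
      have hne2 : (w : List (Fin 3)).reverse ≠ w₀ := by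
        intro e
        have e' : (w : List (Fin 3)) = (w₀ : List (Fin 3)).reverse := by
          rw [← e, List.reverse_reverse]
        have a1 := ((hTmem _).1 w.2).2
        have a2 := ((hTmem _).1 w₀.2).2
        rw [e] at a1
        rw [← e'] at a2
        exact hne (henc (le_antisymm a1 a2))
      rw [WW_coeff, WW_coeff, if_neg hne, if_neg hne2, add_zero, mul_zero]
    · intro h
      exact absurd (Finset.mem_univ _) h
  have hfr := hli.fintype_card_le_finrank
  rw [Fintype.card_coe] at hfr
  omega

end Pool.Agent.Run7.h722.KM
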