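import Pool.Agent.Run7.h547.KM.Iface

/-!
# Project KM (helper547): piece DIM
-/

set_option autoImplicit false

universe u

namespace Pool.Agent.Run7.h722.KM

open Pool.Agent.Run7.h547.KM

section dim
variable (k : Type u) [Field k]

/-- the special representation on monomials -/
noncomputable def phi : FreeMagma (Fin 3) → AA k
  | .of i => WW k [i]
  | .mul u v => phi u * phi v + phi v * phi u

lemma phi_of (i : Fin 3) : phi k (FreeMagma.of i) = WW k [i] := rfl

lemma phi_mul (u v : FreeMagma (Fin 3)) :
    phi k (u * v) = phi k u * phi k v + phi k v * phi k u := rfl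

/-- the linear extension of `phi` -/
noncomputable def FF : FreeNonUnitalNonAssocAlgebra k (Fin 3) →ₗ[k] AA k :=
  (MonoidAlgebra.basis (FreeMagma (Fin 3)) k).constr k (phi k)

lemma FF_single_one (w : FreeMagma (Fin 3)) : FF k (MonoidAlgebra.single w 1) = phi k w := by
  unfold FF
  rw [← MonoidAlgebra.basis_apply, Module.Basis.constr_basis]

lemma FF_single (w : FreeMagma (Fin 3)) (r : k) :
    FF k (MonoidAlgebra.single w r) = r • phi k w := by
  have : (MonoidAlgebra.single w r : FreeNonUnitalNonAssocAlgebra k (Fin 3)) =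
      r • MonoidAlgebra.single w 1 := by
    rw [MonoidAlgebra.smul_single', mul_one]
  rw [this, map_smul, FF_single_one]

lemma FF_mul (x y : FreeNonUnitalNonAssocAlgebra k (Fin 3)) :
    FF k (x * y) = FF k x * FF k y + FF k y * FF k x := by
  induction x using MonoidAlgebra.induction_linear with
  | zero => simp
  | add x₁ x₂ h1 h2 =>
    rw [add_mul, map_add, map_add, h1, h2]
    noncomm_ring
  | single a r =>
    induction y using MonoidAlgebra.induction_linear with
    | zero => simp
    | add y₁ y₂ h1 h2 =>
      rw [mul_add, map_add, map_add, h1, h2]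
      noncomm_ring
    | single b s =>
      rw [MonoidAlgebra.single_mul_single, FF_single, FF_single, FF_single, phi_mul, smul_add,
        smul_mul_smul_comm, smul_mul_smul_comm, mul_comm s r]

lemma ker_isJordIdeal : IsJordIdeal k (LinearMap.ker (FF k)) where
  mul_left a x hx := by
    rw [LinearMap.mem_ker] at hx ⊢
    rw [FF_mul, hx, mul_zero, zero_mul, add_zero]
  mul_right a x hx := by
    rw [LinearMap.mem_ker] at hx ⊢
    rw [FF_mul, hx, mul_zero, zero_mul, add_zero]
  comm a b := by
    rw [LinearMap.mem_ker, map_sub, FF_mul, FF_mul, add_comm, sub_self]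
  jord a b := by
    rw [LinearMap.mem_ker, map_sub]
    simp only [FF_mul]
    noncomm_ring

lemma jordIdeal_le : jordIdeal k ≤ LinearMap.ker (FF k) := sInf_le (ker_isJordIdeal k)

/-- the special representation of the free Jordan algebra -/
noncomputable def GG : Jord k →ₗ[k] AA k := (jordIdeal k).liftQ (FF k) (jordIdeal_le k)

lemma GG_cls (w : FreeMagma (Fin 3)) : GG k (cls k w) = phi k w := by
  unfold GG cls
  rw [Submodule.mkQ_apply, Submodule.liftQ_apply, FF_single_one]

lemma map_piece (n : ℕ) : (jordPiece k n).map (GG k) =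
    Submodule.span k {x | ∃ w : FreeMagma (Fin 3), w.length = n ∧ x = phi k w} := by
  unfold jordPiece
  rw [Submodule.map_span]
  congr 1
  ext x
  constructor
  · rintro ⟨y, ⟨w, hw, rfl⟩, rfl⟩
    exact ⟨w, hw, GG_cls k w⟩
  · rintro ⟨w, hw, rfl⟩
    exact ⟨cls k w, ⟨w, hw, rfl⟩, GG_cls k w⟩

lemma mul_mem (m n : ℕ) (x y : AA k)
    (hx : x ∈ Submodule.span k {x | ∃ w : FreeMagma (Fin 3), w.length = m ∧ x = phi k w})
    (hy : y ∈ Submodule.span k {x | ∃ w : FreeMagma (Fin 3), w.length = n ∧ x = phi k w}) :
    x * y + y * x ∈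
      Submodule.span k {x | ∃ w : FreeMagma (Fin 3), w.length = m + n ∧ x = phi k w} := by
  induction hx using Submodule.span_induction with
  | mem x hx =>
    obtain ⟨u, hu, rfl⟩ := hx
    induction hy using Submodule.span_induction with
    | mem y hy =>
      obtain ⟨v, hv, rfl⟩ := hy
      refine Submodule.subset_span ⟨u * v, ?_, (phi_mul k u v).symm⟩
      change u.length + v.length = m + n
      rw [hu, hv]
    | zero => rw [mul_zero, zero_mul, add_zero]; exact Submodule.zero_mem _
    | add y₁ y₂ _ _ h1 h2 =>
      have e : phi k u * (y₁ + y₂) + (y₁ + y₂) * phi k u =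
          (phi k u * y₁ + y₁ * phi k u) + (phi k u * y₂ + y₂ * phi k u) := by noncomm_ring
      rw [e]; exact Submodule.add_mem _ h1 h2
    | smul a y _ h =>
      have e : phi k u * (a • y) + (a • y) * phi k u = a • (phi k u * y + y * phi k u) := by
        rw [mul_smul_comm, smul_mul_assoc, smul_add]
      rw [e]; exact Submodule.smul_mem _ _ h
  | zero => rw [mul_zero, zero_mul, add_zero]; exact Submodule.zero_mem _
  | add x₁ x₂ _ _ h1 h2 =>
    have e : (x₁ + x₂) * y + y * (x₁ + x₂) = (x₁ * y + y * x₁) + (x₂ * y + y * x₂) := by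
      noncomm_ring
    rw [e]; exact Submodule.add_mem _ h1 h2
  | smul a x _ h =>
    have e : (a • x) * y + y * (a • x) = a • (x * y + y * x) := by
      rw [mul_smul_comm, smul_mul_assoc, smul_add]
    rw [e]; exact Submodule.smul_mem _ _ h

end dim

lemma finite_le (n : ℕ) : {w : FreeMagma (Fin 3) | w.length ≤ n}.Finite := by
  induction n with
  | zero =>
    refine Set.Finite.subset Set.finite_empty fun w hw => ?_
    have h1 : w.length ≤ 0 := hw
    have h2 := w.length_pos
    omega
  | succ n ih =>
    refine ((Set.finite_range (FreeMagma.of : Fin 3 → FreeMagma (Fin 3))).union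
      (Set.Finite.image2 (fun u v => u * v) ih ih)).subset fun w hw => ?_
    have hw' : w.length ≤ n + 1 := hw
    cases w with
    | of i => exact Or.inl ⟨i, rfl⟩
    | mul u v =>
      have h1 : u.length + v.length ≤ n + 1 := hw'
      have h2 := u.length_pos
      have h3 := v.length_pos
      refine Or.inr (Set.mem_image2_of_mem (f := fun u v : FreeMagma (Fin 3) => u * v) ?_ ?_)
      · change u.length ≤ n
        omega
      · change v.length ≤ n
        omega

lemma finite_eq (n : ℕ) : {w : FreeMagma (Fin 3) | w.length = n}.Finite :=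
  (finite_le n).subset fun w hw => by
    change w.length ≤ n
    exact le_of_eq hw

theorem t_DIM : S_COHN.{u} → S_COUNT.{u} → S_DIM.{u} := by
  intro hC hN k _ _ n hn
  have hset : {x | ∃ w : FreeMagma (Fin 3), w.length = n ∧ x = cls k w} =
      cls k '' {w : FreeMagma (Fin 3) | w.length = n} := by
    ext x
    constructor
    · rintro ⟨w, hw, rfl⟩
      exact ⟨w, hw, rfl⟩
    · rintro ⟨w, hw, rfl⟩
      exact ⟨w, hw, rfl⟩
  have hfinP : Module.Finite k (jordPiece k n) := by
    unfold jordPiece
    rw [hset]
    exact Module.Finite.span_of_finite k ((finite_eq n).image _)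
  have h1 : ∀ w : List (Fin 3), w.length = n →
      WW k w + WW k w.reverse ∈ (jordPiece k n).map (GG k) := by
    intro w hw
    have hne : w ≠ [] := by
      rintro rfl
      rw [List.length_nil] at hw
      omega
    have h2 := hC k (fun m => (jordPiece k m).map (GG k)) (fun i => ?_)
      (fun m m' x y hx hy => ?_) w hne
    · rw [hw] at h2
      exact h2
    · rw [map_piece]
      exact Submodule.subset_span ⟨FreeMagma.of i, rfl, rfl⟩
    · rw [map_piece] at hx hy ⊢
      exact mul_mem k m m' x y hx hy
  have h3 := hN k n ((jordPiece k n).map (GG k)) inferInstance h1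
  have h4 := Submodule.finrank_map_le (GG k) (jordPiece k n)
  unfold dimJord
  omega

end Pool.Agent.Run7.h722.KM
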